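import Pool.Agent.W275.FMK.All

/-!
# MP_4a0cc8_nt: no congruences with the curves of good reduction outside `N`, for 100% of the elliptic
curves over every number field

Let `K` be a number field and `N ≠ 0` an integer of `K`.  For 100% of the elliptic curves
`E : y² = x³ + Ax + B` over `K`, ordered by the size of the coordinates of `A, B` in an integral basis,
the Galois modules `E[n]` and `E₀[n]` are not isomorphic, for all `n ≥ 2` and all elliptic curves
`E₀ : y² = x³ + A₀x + B₀` with good reduction outside `N` at the same time.  With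
`N = 4A₀³ + 27B₀²` this is the statement for a fixed curve `E₀`.

Proof.  Let `𝔮` be a prime ideal of degree one over `q ≥ 5` which divides `4A³ + 27B²` exactly once and
not `N`, and `q ∤ n`.  If `E[n] ≅ E₀[n]`, the inertia group at `𝔮` acts trivially on both (good
reduction of `E₀`), so `E[n]` is defined over a field which is unramified at `𝔮`; there no point reduces
to the node of `E` modulo `𝔮`, so `E[n]` is contained in the nonsingular part and has at most `n`
points, but it has at least `n²`.  By a sieve, using that the sum of the inverses of the norms of the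
primes of degree one diverges, 100% of the curves have two such primes with different `q`, and one of
them does not divide the smallest prime factor of `n`.  All of this is proved from scratch.

Parts were proved by helpers 21, 22, 45, 61, 63, 67, 99, 125, 135, 140, 150, 155, 202, 239, 303, 305,
334, 342, 349, 479, 515, 565, 672, 696, 737 (subtasks of helper275); the library `H901R3.MS` of places
and `Helper932` on ideals are used.
-/

set_option autoImplicit false

open WeierstrassCurve NumberField Filter Topology
open scoped Classical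

namespace Pool.Agent.Results.MP_4a0cc8_nt.EveryNumberField

variable {K : Type} [Field K] [NumberField K]

/-- The curve `y² = x³ + Ax + B` over `K`, `A`, `B` integers of `K`. -/
def curve (A B : 𝓞 K) : WeierstrassCurve K := ⟨0, 0, 0, (A : K), (B : K)⟩

/-- The group of its points over the algebraic closure of `K`. -/
abbrev Points (A B : 𝓞 K) : Type := ((curve A B).baseChange (AlgebraicClosure K)).toAffine.Point

/-- The action of a `K`-automorphism `σ` of the algebraic closure on the points. -/
noncomputable def galois (A B : 𝓞 K) (σ : AlgebraicClosure K ≃ₐ[K] AlgebraicClosure K) :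
    Points A B →+ Points A B :=
  WeierstrassCurve.Affine.Point.map
    (σ : AlgebraicClosure K →ₐ[K] AlgebraicClosure K)

/-- The `n`-torsion of `y² = x³ + Ax + B` and that of `y² = x³ + A'x + B'` are isomorphic as Galois
modules: some map between the groups of points restricts to a bijective additive map of the
`n`-torsion which commutes with the Galois group of `K`. -/
def Congruent (n : ℕ) (A B A' B' : 𝓞 K) : Prop :=
  ∃ f : Points A B → Points A' B', (∀ P Q, n • P = 0 → n • Q = 0 → f (P + Q) = f P + f Q) ∧
    Set.BijOn f {P | n • P = 0} {Q | n • Q = 0} ∧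
    ∀ (σ : AlgebraicClosure K ≃ₐ[K] AlgebraicClosure K) (P : Points A B), n • P = 0 →
      f (galois A B σ P) = galois A' B' σ (f P)

/-- The discriminant, up to the factor `-16`. -/
def disc (A B : 𝓞 K) : 𝓞 K := 4 * A ^ 3 + 27 * B ^ 2

/-- The equations whose coefficients `A`, `B` have coordinates at most `T²`, `T³` in the integral
basis `ω`. -/
def Box {J : Type} (ω : Module.Basis J ℤ (𝓞 K)) (T : ℕ) : Set (𝓞 K × 𝓞 K) :=
  {p | (∀ j, |ω.repr p.1 j| ≤ (T : ℤ) ^ 2) ∧ ∀ j, |ω.repr p.2 j| ≤ (T : ℤ) ^ 3}

/-- Every prime ideal which contains `4A³ + 27B²` contains `N`. -/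
def GoodOutside (N A B : 𝓞 K) : Prop :=
  ∀ 𝔭 : Ideal (𝓞 K), 𝔭.IsPrime → disc A B ∈ 𝔭 → N ∈ 𝔭

/-- **No congruences with the curves of good reduction outside `N`, for 100% of the curves over a
number field.**  The proportion of the pairs `(A, B)` in the box of size `T` for which
`E : y² = x³ + Ax + B` is an elliptic curve and `E[n]`, `E₀[n]` are not isomorphic as Galois modules, for
every `n ≥ 2` and every `E₀ : y² = x³ + A₀x + B₀` such that `4A₀³ + 27B₀²` is only divisible by
primes which divide `N`, tends to `1` as `T → ∞`. -/
theorem result (K : Type) [Field K] [NumberField K] (J : Type) [Fintype J]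
    (ω : Module.Basis J ℤ (𝓞 K)) (N : 𝓞 K) (hN : N ≠ 0) :
    Tendsto (fun T : ℕ =>
      (({p | p ∈ Box ω T ∧ disc p.1 p.2 ≠ 0 ∧ ∀ A₀ B₀ : 𝓞 K, GoodOutside N A₀ B₀ →
        ∀ n : ℕ, 2 ≤ n → ¬ Congruent n p.1 p.2 A₀ B₀} : Set (𝓞 K × 𝓞 K)).ncard : ℝ) /
      ((Box ω T).ncard : ℝ)) atTop (𝓝 1) := by
  refine (Pool.Agent.W275.FMK.lim K J ω N hN).congr fun T => ?_
  congr 2
  congr 1
  ext p
  constructor
  · rintro ⟨h1, h2, h3⟩
    exact ⟨h1, h2, fun A₀ B₀ hg n hn hc => h3 ⟨A₀, B₀, n, hg, hn, hc⟩⟩
  · rintro ⟨h1, h2, h3⟩
    exact ⟨h1, h2, fun ⟨A₀, B₀, n, hg, hn, hc⟩ => h3 A₀ B₀ hg n hn hc⟩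

end Pool.Agent.Results.MP_4a0cc8_nt.EveryNumberField
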